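import Pool.Agent.Y66.CM.Final

/-!
# MP_cb9bff_gt, Q2: cone monotone maps between closed smooth manifolds are close to diffeomorphisms

Q2 asks for the smooth closed simply connected 4-manifolds up to diffeomorphism.  The theorem says
that such a manifold is determined by maps of very low regularity.  Call a continuous map
`f : X → Y` of smooth `n`-manifolds *cone monotone* at `x` if in suitable smooth coordinates
around `x` and `f x` every direction `v` has a cone of directions around it in which the
increments of `f` lie in a proper convex cone.  No differentiability, no Lipschitz condition on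
`f` or on an inverse and no injectivity is required.  A cone monotone map from a closed manifold
is homotopic, inside any given neighbourhood of its graph, to a local diffeomorphism; if the
source is connected and the target simply connected (or the map has a right homotopy inverse, for
instance is a homeomorphism) the local diffeomorphism is a diffeomorphism.  So two closed
simply connected smooth 4-manifolds are diffeomorphic if and only if there is a cone monotone map
from one to the other, and a homeomorphism between two that are not diffeomorphic fails to be cone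
monotone somewhere.

The method is smoothing by averages with variable radius in overlapping boxes.  It uses the
projects SH and SH3 of helper522 (with helpers 954, 270, 977 for the steps used here) and SD of
helper521 (with helpers 407, 419, 563), where the target is Euclidean or affine.
-/

set_option autoImplicit false

open Set Filter Topology Metric Function
open scoped Manifold ContDiff

noncomputable section

namespace Pool.Agent.Results.MP_cb9bff_gt.ConeMonotone

/-- `f : X → Y` is cone monotone at `x`: there are smooth coordinates `A` around `x` (a local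
diffeomorphism from `ℝ^n` at `0` with `A 0 = x`) and `B` around `f x` (a local diffeomorphism to
`ℝ^n` at `f x`) such that for every `v ≠ 0` there are `r > 0` and a linear functional `ℓ` with
`r * ‖Δ‖ < ℓ Δ` for every increment `Δ = B (f (A q)) - B (f (A p))` with `p`, `q` in the
`r`-ball and `q - p` in the convex cone of all `w` with `‖w - t v‖ ≤ r t` for some `t > 0`. -/
def ConeMonotoneAt (n : ℕ) {X Y : Type} [TopologicalSpace X]
    [ChartedSpace (EuclideanSpace ℝ (Fin n)) X] [TopologicalSpace Y]
    [ChartedSpace (EuclideanSpace ℝ (Fin n)) Y] (f : X → Y) (x : X) : Prop :=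
  ∃ (A : EuclideanSpace ℝ (Fin n) → X) (B : Y → EuclideanSpace ℝ (Fin n)),
    A 0 = x ∧ IsLocalDiffeomorphAt (𝓡 n) (𝓡 n) ∞ A 0 ∧
    IsLocalDiffeomorphAt (𝓡 n) (𝓡 n) ∞ B (f x) ∧
    ∀ v : EuclideanSpace ℝ (Fin n), v ≠ 0 →
      ∃ (r : ℝ) (ℓ : EuclideanSpace ℝ (Fin n) →L[ℝ] ℝ), 0 < r ∧
        ∀ p q : EuclideanSpace ℝ (Fin n), ‖p‖ ≤ r → ‖q‖ ≤ r →
          ∀ t : ℝ, 0 < t → ‖q - p - t • v‖ ≤ r * t →
            r * ‖B (f (A q)) - B (f (A p))‖ < ℓ (B (f (A q)) - B (f (A p)))

theorem coneMonotoneAt_iff (n : ℕ) {X Y : Type} [TopologicalSpace X]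
    [ChartedSpace (EuclideanSpace ℝ (Fin n)) X] [TopologicalSpace Y]
    [ChartedSpace (EuclideanSpace ℝ (Fin n)) Y] (f : X → Y) (x : X) :
    ConeMonotoneAt n f x ↔ Pool.Agent.Y66.CM.CMon n f x := by
  constructor
  · rintro ⟨A, B, h1, h2, h3, h4⟩
    exact ⟨B, h3, A, h1, h2, h4⟩
  · rintro ⟨B, h3, A, h1, h2, h4⟩
    exact ⟨A, B, h1, h2, h3, h4⟩

/-- local diffeomorphisms are cone monotone -/
theorem coneMonotoneAt_of_localDiffeo (n : ℕ) {X Y : Type} [TopologicalSpace X]
    [ChartedSpace (EuclideanSpace ℝ (Fin n)) X] [IsManifold (𝓡 n) ∞ X] [TopologicalSpace Y]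
    [ChartedSpace (EuclideanSpace ℝ (Fin n)) Y] (f : X → Y) (x : X)
    (h : IsLocalDiffeomorphAt (𝓡 n) (𝓡 n) ∞ f x) : ConeMonotoneAt n f x :=
  (coneMonotoneAt_iff n f x).2 (Pool.Agent.Y66.CM.CMon_of_LD h)

/-- Cone monotone maps of closed manifolds are homotopic in every neighbourhood of their graph to
local diffeomorphisms, and to diffeomorphisms if the source is connected and the target simply
connected or the map has a right homotopy inverse.  In particular, for connected source and simply
connected target, the manifolds are diffeomorphic if and only if there is a cone monotone map. -/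
theorem result (n : ℕ) (X Y : Type)
    [TopologicalSpace X] [T2Space X] [CompactSpace X]
    [ChartedSpace (EuclideanSpace ℝ (Fin n)) X] [IsManifold (𝓡 n) ∞ X]
    [TopologicalSpace Y] [T2Space Y]
    [ChartedSpace (EuclideanSpace ℝ (Fin n)) Y] [IsManifold (𝓡 n) ∞ Y] :
    (∀ f : C(X, Y), (∀ x, ConeMonotoneAt n f x) →
      ∀ O : Set (X × Y), IsOpen O → (∀ x, (x, f x) ∈ O) →
      ∃ f' : C(X, Y), ContinuousMap.HomotopicWith f f' (fun g => ∀ x, (x, g x) ∈ O) ∧
        IsLocalDiffeomorph (𝓡 n) (𝓡 n) ∞ f' ∧
        (ConnectedSpace X →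
          (SimplyConnectedSpace Y ∨
            ∃ g : C(Y, X), (f.comp g).Homotopic (ContinuousMap.id Y)) →
          ∃ Φ : X ≃ₘ^∞⟮𝓡 n, 𝓡 n⟯ Y, ⇑Φ = ⇑f')) ∧
    (ConnectedSpace X → SimplyConnectedSpace Y →
      (Nonempty (X ≃ₘ^∞⟮𝓡 n, 𝓡 n⟯ Y) ↔ ∃ f : C(X, Y), ∀ x, ConeMonotoneAt n f x)) := by
  have h4 : ∀ f : C(X, Y), (∀ x, ConeMonotoneAt n f x) →
      ∀ O : Set (X × Y), IsOpen O → (∀ x, (x, f x) ∈ O) →
      ∃ f' : C(X, Y), ContinuousMap.HomotopicWith f f' (fun g => ∀ x, (x, g x) ∈ O) ∧
        IsLocalDiffeomorph (𝓡 n) (𝓡 n) ∞ f' ∧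
        (ConnectedSpace X →
          (SimplyConnectedSpace Y ∨
            ∃ g : C(Y, X), (f.comp g).Homotopic (ContinuousMap.id Y)) →
          ∃ Φ : X ≃ₘ^∞⟮𝓡 n, 𝓡 n⟯ Y, ⇑Φ = ⇑f') := fun f hf O hO hfO =>
    (Pool.Agent.Y66.CM.main n X Y).2 f (fun x => (coneMonotoneAt_iff n f x).1 (hf x)) O hO hfO
  refine ⟨h4, fun hX hY => ⟨?_, ?_⟩⟩
  · rintro ⟨Φ⟩
    exact ⟨⟨Φ, Φ.continuous⟩, fun x =>
      coneMonotoneAt_of_localDiffeo n Φ x (Φ.isLocalDiffeomorph x)⟩
  · rintro ⟨f, hf⟩
    obtain ⟨f', -, -, h⟩ := h4 f hf univ isOpen_univ (fun x => mem_univ _)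
    obtain ⟨Φ, -⟩ := h hX (Or.inl hY)
    exact ⟨Φ⟩

end Pool.Agent.Results.MP_cb9bff_gt.ConeMonotone
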