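import Pool.Agent.Y170.NA.CO

/-!
# MP_cb9bff_gt, Q2: smooth homeomorphisms of corank at most one

Q2 asks for the smooth closed simply connected 4-manifolds up to diffeomorphism.  Let `X` and `Y`
be closed smooth manifolds of the same dimension `m + 1` (for Q2 `m = 3`) and let `f : X → Y` be a
smooth bijection, hence a homeomorphism, whose derivative has rank at least `m` everywhere; its
inverse need not be differentiable, and nothing is assumed about the set of critical points.  Then
`X` and `Y` are diffeomorphic, by diffeomorphisms whose graphs lie in any prescribed neighbourhood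
of the graph of `f`.

The method: near a critical point `f` has `m` smooth linear coordinates and is strictly monotone
along the fibres of these; the last coordinate is mollified in boxes, one after the other, with
control of the `C^1` distance to `f` in all the other boxes.
-/

set_option autoImplicit false

open Set Filter Topology Metric Function
open scoped Manifold ContDiff

noncomputable section

namespace Pool.Agent.Results.MP_cb9bff_gt.CorankOne

/-- the linear map `L` has rank at least `m`: composed with some linear map it is onto `ℝ^m` -/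
def RankAtLeast (m : ℕ) {n : ℕ}
    (L : EuclideanSpace ℝ (Fin n) →L[ℝ] EuclideanSpace ℝ (Fin n)) : Prop :=
  ∃ P : EuclideanSpace ℝ (Fin n) →L[ℝ] EuclideanSpace ℝ (Fin m), Surjective (fun v => P (L v))

theorem RankAtLeast.le {m n : ℕ}
    {L : EuclideanSpace ℝ (Fin n) →L[ℝ] EuclideanSpace ℝ (Fin n)} (h : RankAtLeast m L) :
    m ≤ Module.finrank ℝ (LinearMap.range L.toLinearMap) := by
  obtain ⟨P, hP⟩ := h
  have h4 : Surjective (P.toLinearMap ∘ₗ (LinearMap.range L.toLinearMap).subtype) := by
    intro w
    obtain ⟨v, hv⟩ := hP w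
    exact ⟨⟨_, LinearMap.mem_range_self _ v⟩, hv⟩
  have h5 := LinearMap.finrank_le_finrank_of_surjective h4
  rwa [finrank_euclideanSpace, Fintype.card_fin] at h5

/-- A smooth bijection of closed `(m+1)`-manifolds with derivative of rank at least `m` everywhere
can be replaced by a diffeomorphism, with graph in a given neighbourhood of its graph. -/
theorem result (m : ℕ) (X Y : Type)
    [TopologicalSpace X] [T2Space X] [CompactSpace X]
    [ChartedSpace (EuclideanSpace ℝ (Fin (m + 1))) X] [IsManifold (𝓡 (m + 1)) ∞ X]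
    [TopologicalSpace Y] [T2Space Y]
    [ChartedSpace (EuclideanSpace ℝ (Fin (m + 1))) Y] [IsManifold (𝓡 (m + 1)) ∞ Y]
    (f : X → Y) (hf : ContMDiff (𝓡 (m + 1)) (𝓡 (m + 1)) ∞ f) (hb : Bijective f)
    (hr : ∀ x, RankAtLeast m (mfderiv (𝓡 (m + 1)) (𝓡 (m + 1)) f x))
    (O : Set (X × Y)) (hO : IsOpen O) (hfO : ∀ x, (x, f x) ∈ O) :
    ∃ Φ : X ≃ₘ^∞⟮𝓡 (m + 1), 𝓡 (m + 1)⟯ Y, ∀ x, (x, Φ x) ∈ O := by
  obtain ⟨f', h1, h2, h3⟩ := Pool.Agent.Y170.NA.co m X Y f hf hb (fun x => (hr x).le) O hO hfO
  have hl : IsLocalDiffeomorph (𝓡 (m + 1)) (𝓡 (m + 1)) ∞ f' := h3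
  exact ⟨hl.diffeomorphOfBijective h2, h1⟩

end Pool.Agent.Results.MP_cb9bff_gt.CorankOne
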