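import Pool.Agent.Y522.NA.All

/-!
# MP_cb9bff_gt, Q2: nearly affine maps between closed smooth manifolds

Q2 asks for the smooth closed simply connected 4-manifolds up to diffeomorphism.  The theorem says
that such a manifold is determined by maps which are affine up to a small relative error at all
small scales.  Call a continuous map `f : X → Y` of smooth `n`-manifolds `ε`-*nearly affine* at
`x` if in suitable smooth coordinates around `x` and `f x` the map differs on every small ball
`B(p, r)` from an affine isomorphism, which may depend on `p` and `r`, by at most `ε r` after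
pulling back with this affine isomorphism.  The affine maps may rotate, and may degenerate, when
the scale `r` goes to zero; no differentiability, no Lipschitz condition, no bound on the
eccentricities and no injectivity is required.  The source carries a distance (for instance a
Riemannian distance) for which the coordinates are `κ`-bi-Lipschitz.

There is `ε = ε(n, κ) > 0` such that all `ε`-nearly affine maps between closed `n`-manifolds are
homotopic, inside any given neighbourhood of their graph, to local diffeomorphisms, and to
diffeomorphisms if the source is connected and either the target is simply connected or the map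
has a right homotopy inverse (for instance if the map is a homeomorphism).  So homeomorphisms
between closed smooth 4-manifolds which are not diffeomorphic stay, at arbitrarily small scales, a
definite distance away from all affine maps.

The method: average of mollifications in the coordinates of the source, with values in a Euclidean
space which contains the target, followed by a smooth retraction; the approximating linear maps
degenerate slower than any power of the scale that would matter.
-/

set_option autoImplicit false

open Set Filter Topology Metric Function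
open scoped Manifold ContDiff

noncomputable section

namespace Pool.Agent.Results.MP_cb9bff_gt.NearlyAffine

/-- `f : X → Y` is nearly affine at `x` with error `ε`: there are smooth coordinates `A` around `x`
(a local diffeomorphism from `ℝ^n` at `0` with `A 0 = x`) and `B` around `f x` (a local
diffeomorphism to `ℝ^n` at `f x`) and `ρ > 0` such that `A` is `κ`-bi-Lipschitz on the `ρ`-ball
and for every point `p` of the `ρ`-ball and every scale `0 < r < ρ` there is a linear isomorphism
`L` such that `g = B ∘ f ∘ A` satisfies `‖L⁻¹ (g (p + v) - g p) - v‖ ≤ ε r` whenever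
`‖v‖ ≤ r`. -/
def NearlyAffineAt (n : ℕ) (κ ε : ℝ) {X Y : Type} [MetricSpace X]
    [ChartedSpace (EuclideanSpace ℝ (Fin n)) X] [TopologicalSpace Y]
    [ChartedSpace (EuclideanSpace ℝ (Fin n)) Y] (f : X → Y) (x : X) : Prop :=
  ∃ (A : EuclideanSpace ℝ (Fin n) → X) (B : Y → EuclideanSpace ℝ (Fin n)),
    A 0 = x ∧ IsLocalDiffeomorphAt (𝓡 n) (𝓡 n) ∞ A 0 ∧
    IsLocalDiffeomorphAt (𝓡 n) (𝓡 n) ∞ B (f x) ∧
    ∃ ρ : ℝ, 0 < ρ ∧
      (∀ p q : EuclideanSpace ℝ (Fin n), ‖p‖ < ρ → ‖q‖ < ρ →
        ‖p - q‖ ≤ κ * dist (A p) (A q) ∧ dist (A p) (A q) ≤ κ * ‖p - q‖) ∧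
      ∀ p : EuclideanSpace ℝ (Fin n), ‖p‖ < ρ → ∀ r : ℝ, 0 < r → r < ρ →
        ∃ L : EuclideanSpace ℝ (Fin n) ≃L[ℝ] EuclideanSpace ℝ (Fin n),
          ∀ v : EuclideanSpace ℝ (Fin n), ‖v‖ ≤ r →
            ‖L.symm (B (f (A (p + v))) - B (f (A p))) - v‖ ≤ ε * r

/-- Nearly affine maps between closed manifolds are homotopic, in every neighbourhood of their
graph, to local diffeomorphisms, and to diffeomorphisms if the source is connected and the target
simply connected or the map has a right homotopy inverse. -/
theorem result (n : ℕ) (κ : ℝ) : ∃ ε : ℝ, 0 < ε ∧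
    ∀ (X Y : Type) [MetricSpace X] [CompactSpace X]
      [ChartedSpace (EuclideanSpace ℝ (Fin n)) X] [IsManifold (𝓡 n) ∞ X]
      [TopologicalSpace Y] [T2Space Y] [CompactSpace Y]
      [ChartedSpace (EuclideanSpace ℝ (Fin n)) Y] [IsManifold (𝓡 n) ∞ Y] (f : C(X, Y)),
      (∀ x, NearlyAffineAt n κ ε f x) → ∀ O : Set (X × Y), IsOpen O → (∀ x, (x, f x) ∈ O) →
      ∃ f' : C(X, Y), ContinuousMap.HomotopicWith f f' (fun g => ∀ x, (x, g x) ∈ O) ∧
        IsLocalDiffeomorph (𝓡 n) (𝓡 n) ∞ f' ∧
        (ConnectedSpace X →
          (SimplyConnectedSpace Y ∨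
            ∃ g : C(Y, X), (f.comp g).Homotopic (ContinuousMap.id Y)) →
          ∃ Φ : X ≃ₘ^∞⟮𝓡 n, 𝓡 n⟯ Y, ⇑Φ = ⇑f') := by
  obtain ⟨ε, hε, h⟩ := Pool.Agent.Y522.NA.main n κ
  exact ⟨ε, hε, fun X Y _ _ _ _ _ _ _ _ _ f hf => h X Y f hf⟩

end Pool.Agent.Results.MP_cb9bff_gt.NearlyAffine
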