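import Pool.Agent.Y522.NA.AllT

/-!
# MP_cb9bff_gt, Q2: manifolds related by maps which are diffeomorphisms off a set of zero length

Q2 asks for the smooth closed simply connected 4-manifolds up to diffeomorphism, so for instance
how far apart homeomorphic but not diffeomorphic ones are.  Let `X`, `Y` be closed smooth
`n`-manifolds, `Y` connected, let `S ⊆ Y` be closed of zero length (one-dimensional Hausdorff
measure zero; `S` can be a Cantor set) and let `f : X → Y` be continuous and, over the complement
of `S`, one-to-one and a local diffeomorphism; let every fibre over `S` have a neighbourhood which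
embeds smoothly in `ℝⁿ` (automatic if `f` is a homeomorphism).  Then there is a homeomorphism
`X → Y` which is a diffeomorphism off one point: `X` and `Y` become diffeomorphic after removing
one point from each.  For `n = 4` the closed manifolds that are known to be exotic pairs stay
non-diffeomorphic after removing a point, so every homeomorphism between them fails to be a
diffeomorphism over a set of positive length.

The method: the preimage of a coordinate ball whose boundary misses `S` is diffeomorphic to `ℝⁿ`
(library of MP_126a0d_gt.ThinSingularSet), and a diffeomorphism germ at infinity of `ℝⁿ` extends to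
a diffeomorphism between punctured spaces; the remaining singular point can be pushed anywhere in
the ball, so singular points of different balls can be merged along the connected manifold `Y`.
-/

set_option autoImplicit false

open Set Filter Topology Metric Function MeasureTheory
open scoped Manifold ContDiff

noncomputable section

namespace Pool.Agent.Results.MP_cb9bff_gt.PuncturedManifolds

/-- the subset `K` has a neighbourhood `U` which embeds smoothly in `ℝⁿ` -/
def Embeddable (n : ℕ) {X : Type} [TopologicalSpace X]
    [ChartedSpace (EuclideanSpace ℝ (Fin n)) X] (K : Set X) : Prop :=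
  ∃ (U : Set X) (k : X → EuclideanSpace ℝ (Fin n)), IsOpen U ∧ K ⊆ U ∧ InjOn k U ∧
    ∀ x ∈ U, IsLocalDiffeomorphAt (𝓡 n) (𝓡 n) ∞ k x

/-- `S` has zero length: its preimages under smooth open embeddings `ℝⁿ → Y` have
one-dimensional Hausdorff measure zero -/
def ZeroLength (n : ℕ) {Y : Type} [TopologicalSpace Y]
    [ChartedSpace (EuclideanSpace ℝ (Fin n)) Y] (S : Set Y) : Prop :=
  ∀ c : EuclideanSpace ℝ (Fin n) → Y, Injective c →
    (∀ z, IsLocalDiffeomorphAt (𝓡 n) (𝓡 n) ∞ c z) → μH[1] (c ⁻¹' S) = 0

/-- A map to a closed connected manifold `Y` which is one-to-one and a local diffeomorphism over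
the complement of a closed set of zero length and has embeddable fibres can be replaced by a
homeomorphism which is a local diffeomorphism off one point. -/
theorem result (m : ℕ) (X Y : Type)
    [TopologicalSpace X] [T2Space X] [CompactSpace X]
    [ChartedSpace (EuclideanSpace ℝ (Fin (m + 1))) X] [IsManifold (𝓡 (m + 1)) ∞ X]
    [TopologicalSpace Y] [T2Space Y] [CompactSpace Y] [ConnectedSpace Y]
    [ChartedSpace (EuclideanSpace ℝ (Fin (m + 1))) Y] [IsManifold (𝓡 (m + 1)) ∞ Y]
    (f : X → Y) (S : Set Y) (hf : Continuous f) (hS : IsClosed S) (h0 : ZeroLength (m + 1) S)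
    (h1 : ∀ y, y ∉ S → ∃! x, f x = y)
    (h2 : ∀ x, f x ∉ S → IsLocalDiffeomorphAt (𝓡 (m + 1)) (𝓡 (m + 1)) ∞ f x)
    (h3 : ∀ y ∈ S, Embeddable (m + 1) (f ⁻¹' {y})) :
    ∃ (g : X ≃ₜ Y) (x₀ : X), ∀ x, x ≠ x₀ →
      IsLocalDiffeomorphAt (𝓡 (m + 1)) (𝓡 (m + 1)) ∞ g x :=
  Pool.Agent.Y522.TP.final m X Y f S hf hS h0 h1 h2 h3

end Pool.Agent.Results.MP_cb9bff_gt.PuncturedManifolds
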